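import Pool.Agent.H955Z.Pack.Defs

namespace Pool.Agent.H955Z.Pack

open Module

variable {F V : Type*} [Field F] [AddCommGroup V] [Module F V]

def Cov (S : Set (Submodule F V)) : Prop :=
  (∀ L ∈ S, finrank F L = 2) ∧ ∀ v : V, v ≠ 0 → ∃! L, L ∈ S ∧ v ∈ L

theorem ncard_sub [Finite F] [Finite V] (L : Submodule F V) :
    (L : Set V).ncard = Nat.card F ^ finrank F L := by
  have : Module.Finite F L := Module.Finite.of_finite
  rw [← Module.natCard_eq_pow_finrank (K := F) (V := L)]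
  exact (Nat.card_coe_set_eq _).symm

theorem card_union [Finite F] [Finite V] (W : Submodule F V) (S : Set (Submodule F V))
    (h1 : ∀ L ∈ S, finrank F L = 2) (h0 : ∀ L ∈ S, W ≤ L)
    (h2 : ∀ L ∈ S, ∀ M ∈ S, L ≠ M → ∀ v, v ∈ L → v ∈ M → v ∈ W) :
    {v : V | v ∉ W ∧ ∃ L ∈ S, v ∈ L}.ncard
      = S.ncard * (Nat.card F ^ 2 - Nat.card F ^ finrank F W) := by
  classical
  have hfin : Finite (Submodule F V) :=
    Finite.of_injective (fun L : Submodule F V => (L : Set V)) SetLike.coe_injective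
  have hS : S.Finite := Set.toFinite S
  have key : {v : V | v ∉ W ∧ ∃ L ∈ S, v ∈ L} = ⋃ L ∈ S, ((L : Set V) \ (W : Set V)) := by
    ext v; simp only [Set.mem_ofPred_eq, Set.mem_iUnion, Set.mem_sdiff, SetLike.mem_coe]
    constructor
    · rintro ⟨h, L, hL, hv⟩; exact ⟨L, hL, hv, h⟩
    · rintro ⟨L, hL, hv, h⟩; exact ⟨h, L, hL, hv⟩
  rw [key]
  have hdis : S.PairwiseDisjoint (fun L : Submodule F V => ((L : Set V) \ (W : Set V))) := by
    intro L hL M hM hne
    simp only [Function.onFun]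
    rw [Set.disjoint_left]
    rintro v ⟨a, b⟩ ⟨c, _⟩
    exact b (h2 L hL M hM hne v a c)
  rw [Set.Finite.ncard_biUnion hS (fun _ _ => Set.toFinite _) hdis]
  rw [finsum_mem_eq_finite_toFinset_sum _ hS]
  rw [Finset.sum_congr rfl (g := fun _ => Nat.card F ^ 2 - Nat.card F ^ finrank F W)]
  · rw [Finset.sum_const, smul_eq_mul, Set.ncard_eq_toFinset_card S hS]
  · intro L hL
    have hL' : L ∈ S := by simpa using hL
    rw [Set.ncard_sdiff (by exact h0 L hL'), ncard_sub, ncard_sub, h1 L hL']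

theorem ncard_compl [Finite F] [Finite V] (h4 : finrank F V = 4) (W : Submodule F V) :
    {v : V | v ∉ W}.ncard = Nat.card F ^ 4 - Nat.card F ^ finrank F W := by
  have : {v : V | v ∉ W} = ((⊤ : Submodule F V) : Set V) \ (W : Set V) := by
    ext v; simp
  rw [this, Set.ncard_sdiff (by simp), ncard_sub, ncard_sub, finrank_top, h4]

theorem two_le_card [Finite F] : 2 ≤ Nat.card F := Finite.one_lt_card

theorem spread_iff_cov [Finite F] [Finite V] (h4 : finrank F V = 4) (S : Set (Submodule F V)) :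
    IsSpread S ↔ Cov S := by
  have hq := two_le_card (F := F)
  set q := Nat.card F with hqdef
  have e1 : q ^ 4 - 1 = (q ^ 2 + 1) * (q ^ 2 - 1) := by
    have : 1 ≤ q ^ 2 := Nat.one_le_pow _ _ (by omega)
    have h' : 1 ≤ q ^ 4 := Nat.one_le_pow _ _ (by omega)
    zify [this, h']; ring
  have hc := ncard_compl (F := F) h4 ⊥
  rw [finrank_bot, pow_zero] at hc
  constructor
  · rintro ⟨h1, h2, h3⟩
    refine ⟨h1, fun v hv => ?_⟩
    have hu := card_union (F := F) ⊥ S h1 (fun _ _ => bot_le) (fun L hL M hM hne v a b =>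
      (Submodule.disjoint_def.1 (h3 hL hM hne)) v a b ▸ Submodule.zero_mem _)
    rw [finrank_bot, pow_zero, h2, ← e1, ← hc] at hu
    have := Set.eq_of_subset_of_ncard_le (s := {v : V | v ∉ (⊥ : Submodule F V) ∧ ∃ L ∈ S, v ∈ L})
      (t := {v : V | v ∉ (⊥ : Submodule F V)}) (fun v hv => hv.1) hu.ge
    have hv' : v ∈ {v : V | v ∉ (⊥ : Submodule F V)} := by simpa using hv
    rw [← this] at hv'
    obtain ⟨_, L, hL, hvL⟩ := hv'
    refine ⟨L, ⟨hL, hvL⟩, ?_⟩
    rintro M ⟨hM, hvM⟩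
    by_contra hne
    exact hv ((Submodule.disjoint_def.1 (h3 hM hL hne)) v hvM hvL)
  · rintro ⟨h1, h2⟩
    have h3 : S.Pairwise Disjoint := by
      intro L hL M hM hne
      rw [Submodule.disjoint_def]
      intro v a b
      by_contra hv
      exact hne ((h2 v hv).unique ⟨hL, a⟩ ⟨hM, b⟩)
    refine ⟨h1, ?_, h3⟩
    have hu := card_union (F := F) ⊥ S h1 (fun _ _ => bot_le) (fun L hL M hM hne v a b =>
      (Submodule.disjoint_def.1 (h3 hL hM hne)) v a b ▸ Submodule.zero_mem _)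
    have : {v : V | v ∉ (⊥ : Submodule F V) ∧ ∃ L ∈ S, v ∈ L} = {v : V | v ∉ (⊥ : Submodule F V)} := by
      ext v
      constructor
      · exact fun h => h.1
      · intro h
        have hv : v ≠ 0 := by simpa using h
        obtain ⟨L, hL, _⟩ := h2 v hv
        exact ⟨h, L, hL.1, hL.2⟩
    rw [this, hc, finrank_bot, pow_zero, e1] at hu
    have hpos : 0 < q ^ 2 - 1 := by
      have : 2 ^ 2 ≤ q ^ 2 := Nat.pow_le_pow_left hq 2
      omega
    exact (Nat.eq_of_mul_eq_mul_right hpos hu).symm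

theorem lines_through [Finite F] [Finite V] (h4 : finrank F V = 4) (v : V) (hv : v ≠ 0) :
    {L : Submodule F V | finrank F L = 2 ∧ v ∈ L}.ncard = Nat.card F ^ 2 + Nat.card F + 1 := by
  have hq := two_le_card (F := F)
  have hfd : Module.Finite F V := Module.Finite.of_finite
  have hW : finrank F (F ∙ v) = 1 := finrank_span_singleton hv
  have pair : ∀ w, w ∉ (F ∙ v) → finrank F (Submodule.span F {v, w}) = 2 := by
    intro w hw
    have : LinearIndependent F ![v, w] := by
      rw [LinearIndependent.pair_iff' hv]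
      intro a ha
      exact hw (ha ▸ Submodule.smul_mem _ a (Submodule.mem_span_singleton_self v))
    have h := finrank_span_eq_card this
    have e : Set.range ![v, w] = {v, w} := by
      ext x; simp [or_comm]
    rw [e] at h
    simpa using h
  have hu := card_union (F := F) (F ∙ v) {L : Submodule F V | finrank F L = 2 ∧ v ∈ L}
    (fun L hL => hL.1) (fun L hL => (Submodule.span_singleton_le_iff_mem _ _).2 hL.2) (by
      intro L hL M hM hne w a b
      by_contra hw
      apply hne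
      have key : ∀ N : Submodule F V, finrank F N = 2 → v ∈ N → w ∈ N →
          Submodule.span F {v, w} = N := by
        intro N h1 h2 h3
        apply Submodule.eq_of_le_of_finrank_eq
        · rw [Submodule.span_le]; rintro x (rfl | rfl) <;> assumption
        · rw [pair w hw, h1]
      rw [← key L hL.1 hL.2 a, ← key M hM.1 hM.2 b])
  have : {w : V | w ∉ (F ∙ v) ∧ ∃ L ∈ {L : Submodule F V | finrank F L = 2 ∧ v ∈ L}, w ∈ L}
      = {w : V | w ∉ (F ∙ v)} := by
    ext w
    constructor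
    · exact fun h => h.1
    · intro h
      exact ⟨h, Submodule.span F {v, w}, ⟨pair w h, Submodule.subset_span (by simp)⟩,
        Submodule.subset_span (by simp)⟩
  rw [this, ncard_compl h4, hW, pow_one] at hu
  set q := Nat.card F with hqdef
  have h2 : q ≤ q ^ 2 := Nat.le_self_pow (by norm_num) q
  have h2' : q < q ^ 2 := by nlinarith
  have h3 : q ≤ q ^ 4 := Nat.le_self_pow (by norm_num) q
  have e1 : q ^ 4 - q = (q ^ 2 + q + 1) * (q ^ 2 - q) := by
    zify [h2, h3]; ring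
  rw [e1] at hu
  exact (Nat.eq_of_mul_eq_mul_right (by omega) hu).symm

theorem count_lines (P : Set (Set (Submodule F V))) (h1 : ∀ S ∈ P, Cov S)
    (h2 : P.Pairwise Disjoint) (v : V) (hv : v ≠ 0) :
    {L : Submodule F V | (∃ S ∈ P, L ∈ S) ∧ v ∈ L}.ncard = P.ncard := by
  symm
  refine Set.ncard_congr (fun S hS => ((h1 S hS).2 v hv).exists.choose) ?_ ?_ ?_
  · intro S hS
    have := ((h1 S hS).2 v hv).exists.choose_spec
    exact ⟨⟨S, hS, this.1⟩, this.2⟩
  · intro S S' hS hS' he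
    have a := ((h1 S hS).2 v hv).exists.choose_spec
    have b := ((h1 S' hS').2 v hv).exists.choose_spec
    by_contra hne
    rw [← he] at b
    exact Set.disjoint_left.1 (h2 hS hS' hne) a.1 b.1
  · rintro L ⟨⟨S, hS, hL⟩, hvL⟩
    refine ⟨S, hS, ?_⟩
    have a := ((h1 S hS).2 v hv).exists.choose_spec
    exact ((h1 S hS).2 v hv).unique a ⟨hL, hvL⟩

theorem no_deficiency_one [Finite F] [Finite V] (h4 : finrank F V = 4)
    (P : Set (Set (Submodule F V))) : ¬ IsCompletePartialPacking P 1 := by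
  rintro ⟨h1, h2, h3, h5⟩
  have hfin : Finite (Submodule F V) :=
    Finite.of_injective (fun L : Submodule F V => (L : Set V)) SetLike.coe_injective
  have hc : ∀ S ∈ P, Cov S := fun S hS => (spread_iff_cov h4 S).1 (h1 S hS)
  have hX : Cov {L : Submodule F V | finrank F L = 2 ∧ ¬ ∃ S ∈ P, L ∈ S} := by
    refine ⟨fun L hL => hL.1, fun v hv => ?_⟩
    have a := count_lines P hc h2 v hv
    have b := lines_through (F := F) h4 v hv
    have hsub : {L : Submodule F V | (∃ S ∈ P, L ∈ S) ∧ v ∈ L} ⊆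
        {L : Submodule F V | finrank F L = 2 ∧ v ∈ L} := by
      rintro L ⟨⟨S, hS, hL⟩, hvL⟩
      exact ⟨(hc S hS).1 L hL, hvL⟩
    have c := Set.ncard_sdiff hsub
    rw [a, b, ← h3, Nat.add_sub_cancel_left, Set.ncard_eq_one] at c
    obtain ⟨L, hL⟩ := c
    have hm : L ∈ {L : Submodule F V | finrank F L = 2 ∧ v ∈ L} \
      {L : Submodule F V | (∃ S ∈ P, L ∈ S) ∧ v ∈ L} := by rw [hL]; rfl
    refine ⟨L, ⟨⟨hm.1.1, fun h => hm.2 ⟨h, hm.1.2⟩⟩, hm.1.2⟩, ?_⟩
    rintro M ⟨⟨m1, m2⟩, m3⟩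
    have : M ∈ {L : Submodule F V | finrank F L = 2 ∧ v ∈ L} \
      {L : Submodule F V | (∃ S ∈ P, L ∈ S) ∧ v ∈ L} := ⟨⟨m1, m3⟩, fun h => m2 h.1⟩
    rw [hL] at this
    exact this
  obtain ⟨S, hS, hd⟩ := h5 _ ((spread_iff_cov h4 _).2 hX)
  apply hd
  rw [Set.disjoint_left]
  intro L hL hLS
  exact hL.2 ⟨S, hS, hLS⟩

section transfer
variable {W : Type*} [AddCommGroup W] [Module F W]

theorem spread_map (e : V ≃ₗ[F] W) (S : Set (Submodule F V)) (h : IsSpread S) :
    IsSpread (Submodule.orderIsoMapComap e '' S) := by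
  obtain ⟨h1, h2, h3⟩ := h
  refine ⟨?_, ?_, ?_⟩
  · rintro _ ⟨L, hL, rfl⟩
    rw [← h1 L hL]
    exact LinearEquiv.finrank_map_eq e L
  · rw [Set.ncard_image_of_injective _ (Submodule.orderIsoMapComap e).injective, h2]
  · rintro _ ⟨L, hL, rfl⟩ _ ⟨M, hM, rfl⟩ hne
    exact (h3 hL hM (fun h => hne (h ▸ rfl))).map_orderIso _

theorem cpp_map (e : V ≃ₗ[F] W) (P : Set (Set (Submodule F V))) (d : ℕ)
    (h : IsCompletePartialPacking P d) :
    IsCompletePartialPacking (Set.image (Submodule.orderIsoMapComap e) '' P) d := by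
  obtain ⟨h1, h2, h3, h4⟩ := h
  have hinj := (Submodule.orderIsoMapComap e).injective
  refine ⟨?_, ?_, ?_, ?_⟩
  · rintro _ ⟨S, hS, rfl⟩
    exact spread_map e S (h1 S hS)
  · rintro _ ⟨S, hS, rfl⟩ _ ⟨S', hS', rfl⟩ hne
    exact (Set.disjoint_image_iff hinj).2 (h2 hS hS' (fun h => hne (h ▸ rfl)))
  · rw [Set.ncard_image_of_injective _ hinj.image_injective, h3]
  · intro X hX
    obtain ⟨S, hS, hd⟩ := h4 _ (spread_map e.symm X hX)
    refine ⟨_, ⟨S, hS, rfl⟩, fun hd' => hd ?_⟩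
    rw [Set.disjoint_left] at hd' ⊢
    rintro _ ⟨L, hL, rfl⟩ hLS
    refine hd' hL ⟨_, hLS, ?_⟩
    ext x
    simp [Submodule.orderIsoMapComap]

end transfer

end Pool.Agent.H955Z.Pack
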