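import Mathlib

namespace Pool.Agent.H955Z.Pack

open Module

variable {F V : Type*} [Field F] [AddCommGroup V] [Module F V]

/-- A spread of the projective space of `V`: `q ^ 2 + 1` pairwise skew lines, a line being a
2-dimensional subspace and two lines being skew when they meet only in the zero vector. -/
def IsSpread (S : Set (Submodule F V)) : Prop :=
  (∀ L ∈ S, finrank F L = 2) ∧ S.ncard = Nat.card F ^ 2 + 1 ∧ S.Pairwise Disjoint

/-- A complete partial packing of deficiency `d`: `q ^ 2 + q + 1 - d` pairwise disjoint spreads
such that no spread is disjoint from all of them. -/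
def IsCompletePartialPacking (P : Set (Set (Submodule F V))) (d : ℕ) : Prop :=
  (∀ S ∈ P, IsSpread S) ∧ P.Pairwise Disjoint ∧
    P.ncard + d = Nat.card F ^ 2 + Nat.card F + 1 ∧
    ∀ X : Set (Submodule F V), IsSpread X → ∃ S ∈ P, ¬ Disjoint X S

end Pool.Agent.H955Z.Pack
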