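import Pool.Agent.H955Z.Pack.Count

namespace Pool.Agent.H955Z.Pack

open Module QuadraticAlgebra

variable {F : Type*} [Field F] {n : F} [hn : Fact (∀ r : F, r ^ 2 ≠ n + 0 * r)]

abbrev KK (n : F) := QuadraticAlgebra F n 0

def conjL (n : F) : KK n →ₗ[F] KK n where
  toFun z := star z
  map_add' a b := star_add a b
  map_smul' s z := by ext <;> simp

theorem star_smul' (s : F) (z : KK n) : star (s • z) = s • star z := by ext <;> simp

def gr (x y : KK n) : Submodule F (KK n × KK n) where
  carrier := {v | v.2 = x * v.1 + y * star v.1}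
  add_mem' := by
    intro a b ha hb
    simp only [Set.mem_ofPred_eq, Prod.snd_add, Prod.fst_add, star_add] at *
    rw [ha, hb]; ring
  zero_mem' := by simp
  smul_mem' := by
    intro s a ha
    simp only [Set.mem_ofPred_eq, Prod.smul_snd, Prod.smul_fst, star_smul'] at *
    rw [ha, smul_add, mul_smul_comm, mul_smul_comm]

def gL (n : F) : Submodule F (KK n × KK n) where
  carrier := {v | v.1 = 0}
  add_mem' := by
    intro a b ha hb
    simp only [Set.mem_ofPred_eq, Prod.fst_add] at *
    rw [ha, hb, add_zero]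
  zero_mem' := by simp
  smul_mem' := by
    intro s a ha
    simp only [Set.mem_ofPred_eq, Prod.smul_fst] at *
    rw [ha, smul_zero]

def mm (z a d : KK n) : Submodule F (KK n × KK n) where
  carrier := {v | ∃ α β : F, v.1 = α • z ∧ v.2 = α • (a * z) + β • (d * z)}
  add_mem' := by
    rintro u v ⟨α, β, h1, h2⟩ ⟨α', β', h1', h2'⟩
    refine ⟨α + α', β + β', ?_, ?_⟩
    · simp [h1, h1', add_smul]
    · simp only [Prod.snd_add, h2, h2', add_smul]; ring
  zero_mem' := ⟨0, 0, by simp, by simp⟩
  smul_mem' := by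
    rintro s v ⟨α, β, h1, h2⟩
    refine ⟨s * α, s * β, ?_, ?_⟩
    · simp [h1, mul_smul]
    · simp [h2, mul_smul]

theorem mem_gr {x y : KK n} {v : KK n × KK n} : v ∈ gr x y ↔ v.2 = x * v.1 + y * star v.1 :=
  Iff.rfl
theorem mem_gL {v : KK n × KK n} : v ∈ gL n ↔ v.1 = 0 := Iff.rfl
theorem mem_mm {z a d : KK n} {v : KK n × KK n} :
    v ∈ mm z a d ↔ ∃ α β : F, v.1 = α • z ∧ v.2 = α • (a * z) + β • (d * z) := Iff.rfl

theorem finrank_KK : finrank F (KK n) = 2 := QuadraticAlgebra.finrank_eq_two _ _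

theorem finrank_V : finrank F (KK n × KK n) = 4 := by
  rw [Module.finrank_prod, finrank_KK]

theorem finrank_gr (x y : KK n) : finrank F (gr x y) = 2 := by
  let f : KK n →ₗ[F] KK n × KK n :=
    LinearMap.prod LinearMap.id (LinearMap.mulLeft F x + LinearMap.mulLeft F y ∘ₗ conjL n)
  have hf : Function.Injective f := fun a b h => congrArg Prod.fst h
  have : LinearMap.range f = gr x y := by
    ext v
    simp only [LinearMap.mem_range, mem_gr]
    constructor
    · rintro ⟨z, rfl⟩; rfl
    · intro h; exact ⟨v.1, Prod.ext rfl h.symm⟩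
  rw [← this, LinearMap.finrank_range_of_inj hf, finrank_KK]

theorem finrank_gL : finrank F (gL n) = 2 := by
  have : LinearMap.range (LinearMap.inr F (KK n) (KK n)) = gL n := by
    ext v
    simp only [LinearMap.mem_range, mem_gL]
    constructor
    · rintro ⟨z, rfl⟩; rfl
    · intro h; exact ⟨v.2, Prod.ext h.symm rfl⟩
  rw [← this, LinearMap.finrank_range_of_inj LinearMap.inr_injective, finrank_KK]

theorem finrank_mm {z d : KK n} (a : KK n) (hz : z ≠ 0) (hd : d ≠ 0) :
    finrank F (mm z a d) = 2 := by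
  let f : F × F →ₗ[F] KK n × KK n :=
    LinearMap.coprod (LinearMap.toSpanSingleton F _ (z, a * z))
      (LinearMap.toSpanSingleton F _ (0, d * z))
  have hf : Function.Injective f := by
    rw [injective_iff_map_eq_zero]
    rintro ⟨α, β⟩ h
    have h1 : α • z = 0 := by simpa [f] using congrArg Prod.fst h
    have h2 : α • (a * z) + β • (d * z) = 0 := by simpa [f] using congrArg Prod.snd h
    have hα : α = 0 := by simpa [hz] using h1
    have hβ : β = 0 := by simpa [hα, hz, hd] using h2
    simp [hα, hβ]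
  have : LinearMap.range f = mm z a d := by
    ext v
    simp only [LinearMap.mem_range, mem_mm]
    constructor
    · rintro ⟨⟨α, β⟩, rfl⟩; exact ⟨α, β, by simp [f], by simp [f]⟩
    · rintro ⟨α, β, h1, h2⟩; exact ⟨(α, β), Prod.ext (by simp [f, h1]) (by simp [f, h2])⟩
  rw [← this, LinearMap.finrank_range_of_inj hf]
  simp

theorem n_ne_zero : n ≠ 0 := fun h => hn.out 0 (by simp [h])

theorem omega_ne_zero : (ω : KK n) ≠ 0 := fun h => by simpa using congrArg QuadraticAlgebra.im h

theorem star_omega : star (ω : KK n) = -ω := by ext <;> simp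

theorem gr_inj (h2 : (2 : F) ≠ 0) {x y x' y' : KK n} (h : gr x y = gr x' y') :
    x = x' ∧ y = y' := by
  have a : ((1 : KK n), x * 1 + y * star 1) ∈ gr x' y' := h ▸ mem_gr.2 rfl
  have b : ((ω : KK n), x * ω + y * star ω) ∈ gr x' y' := h ▸ mem_gr.2 rfl
  rw [mem_gr] at a b
  simp only [star_one, mul_one, star_omega] at a b
  have b' : x - y = x' - y' := by
    apply mul_right_cancel₀ (omega_ne_zero (n := n))
    linear_combination b
  have h2' : (2 : KK n) ≠ 0 := fun h => h2 (by simpa using congrArg QuadraticAlgebra.re h)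
  constructor
  · apply mul_left_cancel₀ h2'; linear_combination a + b'
  · apply mul_left_cancel₀ h2'; linear_combination a - b'

theorem gr_ne_gL (x y : KK n) : gr x y ≠ gL n := by
  intro h
  have a : ((1 : KK n), x * 1 + y * star 1) ∈ gL n := h ▸ mem_gr.2 rfl
  exact one_ne_zero (mem_gL.1 a)

theorem mm_ne_gL {z : KK n} (a d : KK n) (hz : z ≠ 0) : mm z a d ≠ gL n := by
  intro h
  have a : (z, a * z) ∈ gL n := h ▸ mem_mm.2 ⟨1, 0, by simp, by simp⟩
  exact hz (mem_gL.1 a)

theorem mm_ne_gr {z d : KK n} (a x y : KK n) (hz : z ≠ 0) (hd : d ≠ 0) : mm z a d ≠ gr x y := by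
  intro h
  have a : ((0 : KK n), d * z) ∈ gr x y := h ▸ mem_mm.2 ⟨0, 1, by simp, by simp⟩
  rw [mem_gr] at a
  simp [hz, hd] at a

theorem mm_smul (z a d : KK n) {t : F} (ht : t ≠ 0) : mm (t • z) a d = mm z a d := by
  ext v
  simp only [mem_mm]
  constructor
  · rintro ⟨α, β, h1, h2⟩
    exact ⟨α * t, β * t, by simp [h1, mul_smul], by simp [h2, mul_smul]⟩
  · rintro ⟨α, β, h1, h2⟩
    exact ⟨α / t, β / t, by simp [h1, smul_smul, ht], by simp [h2, smul_smul, ht]⟩

theorem mm_shift (z a d : KK n) (s : F) {t : F} (ht : t ≠ 0) :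
    mm z (a + s • d) (t • d) = mm z a d := by
  ext v
  simp only [mem_mm]
  constructor
  · rintro ⟨α, β, h1, h2⟩
    refine ⟨α, α * s + β * t, h1, ?_⟩
    rw [h2]; simp only [Algebra.smul_def, map_add, map_mul]; ring
  · rintro ⟨α, β, h1, h2⟩
    refine ⟨α, (β - α * s) / t, h1, ?_⟩
    have : β = α * s + (β - α * s) / t * t := by field_simp; ring
    rw [h2]
    conv_lhs => rw [this]
    simp only [Algebra.smul_def, map_add, map_mul]; ring

theorem mm_eq {z a d z' a' d' : KK n} (hz : z ≠ 0) (hz' : z' ≠ 0) (hd' : d' ≠ 0)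
    (h : mm z a d = mm z' a' d') : ∃ s t : F, t ≠ 0 ∧ a' = a + s • d ∧ d' = t • d := by
  have h1 : (z', a' * z') ∈ mm z a d := h ▸ mem_mm.2 ⟨1, 0, by simp, by simp⟩
  have h2 : ((0 : KK n), d' * z') ∈ mm z a d := h ▸ mem_mm.2 ⟨0, 1, by simp, by simp⟩
  obtain ⟨α, β, e1, e2⟩ := h1
  obtain ⟨γ, δ, e3, e4⟩ := h2
  simp only at e1 e2 e3 e4
  have hα : α ≠ 0 := fun h => hz' (by simp [e1, h])
  have hγ : γ = 0 := by simpa [hz] using e3.symm
  have hα' : algebraMap F (KK n) α ≠ 0 := by simpa using hα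
  have hd : d' = (δ / α) • d := by
    apply mul_right_cancel₀ hz'
    rw [e4, e1, hγ]
    simp only [Algebra.smul_def, map_div₀, map_zero]
    field_simp
    ring
  refine ⟨β / α, δ / α, fun h => hd' (by rw [hd, h, zero_smul]), ?_, hd⟩
  apply mul_right_cancel₀ hz'
  rw [e2, e1]
  simp only [Algebra.smul_def, map_div₀]
  field_simp

theorem classify (h2 : (2 : F) ≠ 0) (L : Submodule F (KK n × KK n)) (hL : finrank F L = 2) :
    L = gL n ∨ (∃ x y, L = gr x y) ∨ ∃ z a d, z ≠ 0 ∧ d ≠ 0 ∧ L = mm z a d := by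
  by_cases h : ∃ w, w ≠ 0 ∧ ((0 : KK n), w) ∈ L
  · obtain ⟨w, hw, hwL⟩ := h
    by_cases h' : L ≤ gL n
    · left
      exact Submodule.eq_of_le_of_finrank_eq h' (by rw [hL, finrank_gL])
    · right; right
      obtain ⟨v, hv, hv'⟩ := Set.not_subset.1 h'
      have hz : v.1 ≠ 0 := hv'
      refine ⟨v.1, v.2 / v.1, w / v.1, hz, div_ne_zero hw hz, ?_⟩
      symm
      apply Submodule.eq_of_le_of_finrank_eq _ (by rw [hL, finrank_mm _ hz (div_ne_zero hw hz)])
      rintro u ⟨α, β, e1, e2⟩
      have : u = α • v + β • ((0 : KK n), w) := by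
        ext1
        · simp [e1]
        · simp [e2, hz]
      rw [this]
      exact L.add_mem (L.smul_mem _ hv) (L.smul_mem _ hwL)
  · right; left
    push Not at h
    let f : L →ₗ[F] KK n := LinearMap.fst F _ _ ∘ₗ L.subtype
    have hf : Function.Injective f := by
      rw [injective_iff_map_eq_zero]
      rintro ⟨⟨a, b⟩, hab⟩ h0
      have ha : a = 0 := h0
      subst ha
      by_cases hb : b = 0
      · subst hb; rfl
      · exact absurd hab (h b hb)
    have hs : Function.Surjective f :=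
      (LinearMap.injective_iff_surjective_of_finrank_eq_finrank (by rw [hL, finrank_KK])).1 hf
    obtain ⟨⟨⟨a, u⟩, hu⟩, ha⟩ := hs 1
    obtain ⟨⟨⟨b, u'⟩, hu'⟩, hb⟩ := hs ω
    have ha' : a = 1 := ha
    have hb' : b = ω := hb
    subst ha' hb'
    have h2' : (2 : KK n) ≠ 0 := fun h => h2 (by simpa using congrArg QuadraticAlgebra.re h)
    have ho := omega_ne_zero (n := n)
    refine ⟨(u + u' / ω) / 2, (u - u' / ω) / 2, ?_⟩
    symm
    apply Submodule.eq_of_le_of_finrank_eq _ (by rw [hL, finrank_gr])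
    intro v hv
    rw [mem_gr] at hv
    have e1 : v.1 = v.1.re • (1 : KK n) + v.1.im • ω := by ext <;> simp
    have e2 : star v.1 = v.1.re • (1 : KK n) - v.1.im • ω := by ext <;> simp
    have : v = v.1.re • ((1 : KK n), u) + v.1.im • (ω, u') := by
      ext1
      · simpa using e1
      · show v.2 = v.1.re • u + v.1.im • u'
        rw [hv, e2]
        generalize v.1.re = a at *
        generalize v.1.im = b at *
        rw [e1]
        simp only [Algebra.smul_def]
        field_simp
        ring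
    rw [this]
    exact L.add_mem (L.smul_mem _ hu) (L.smul_mem _ hu')

theorem norm_smul' (s : F) (z : KK n) : QuadraticAlgebra.norm (s • z) = s ^ 2 * QuadraticAlgebra.norm z := by
  simp [QuadraticAlgebra.norm_def]; ring

theorem coords_zero {κ z : KK n} (hκ : ¬ IsSquare (QuadraticAlgebra.norm κ)) (hz : z ≠ 0)
    {s t : F} (h : s • z + t • (κ * star z) = 0) : s = 0 ∧ t = 0 := by
  have h1 : s • z = (-t) • (κ * star z) := by rw [neg_smul]; exact eq_neg_of_add_eq_zero_left h
  have h2 := congrArg QuadraticAlgebra.norm h1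
  rw [norm_smul', norm_smul', map_mul, QuadraticAlgebra.norm_star] at h2
  have hN : QuadraticAlgebra.norm z ≠ 0 := fun h => hz (norm_eq_zero_iff_eq_zero.1 h)
  have h3 : s ^ 2 = t ^ 2 * QuadraticAlgebra.norm κ := by
    apply mul_right_cancel₀ hN; linear_combination h2
  have ht : t = 0 := by
    by_contra ht
    exact hκ ⟨s / t, by field_simp; linear_combination -h3⟩
  refine ⟨?_, ht⟩
  rw [ht] at h3
  simpa using h3

theorem coords_unique {κ z : KK n} (hκ : ¬ IsSquare (QuadraticAlgebra.norm κ)) (hz : z ≠ 0)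
    {s t s' t' : F} (h : s • z + t • (κ * star z) = s' • z + t' • (κ * star z)) :
    s = s' ∧ t = t' := by
  have := coords_zero hκ hz (s := s - s') (t := t - t') (by
    rw [sub_smul, sub_smul]; linear_combination h)
  exact ⟨sub_eq_zero.1 this.1, sub_eq_zero.1 this.2⟩

theorem coords_exists {κ z : KK n} (hκ : ¬ IsSquare (QuadraticAlgebra.norm κ)) (hz : z ≠ 0)
    (w : KK n) : ∃ s t : F, w = s • z + t • (κ * star z) := by
  let f : F × F →ₗ[F] KK n :=
    LinearMap.coprod (LinearMap.toSpanSingleton F _ z) (LinearMap.toSpanSingleton F _ (κ * star z))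
  have hf : Function.Injective f := by
    rw [injective_iff_map_eq_zero]
    rintro ⟨s, t⟩ h
    have := coords_zero hκ hz (s := s) (t := t) (by simpa [f] using h)
    simp [this.1, this.2]
  have hs : Function.Surjective f :=
    (LinearMap.injective_iff_surjective_of_finrank_eq_finrank (by rw [finrank_KK]; simp)).1 hf
  obtain ⟨⟨s, t⟩, h⟩ := hs w
  exact ⟨s, t, by simpa [f] using h.symm⟩

theorem gr_meet {x y x' y' : KK n} {v : KK n × KK n} (hv : v.1 ≠ 0) (h : v ∈ gr x y)
    (h' : v ∈ gr x' y') : QuadraticAlgebra.norm (x - x') = QuadraticAlgebra.norm (y - y') := by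
  rw [mem_gr] at h h'
  have e : (x - x') * v.1 = -((y - y') * star v.1) := by linear_combination h' - h
  have h2 := congrArg QuadraticAlgebra.norm e
  rw [QuadraticAlgebra.norm_neg, map_mul, map_mul, QuadraticAlgebra.norm_star] at h2
  have hN : QuadraticAlgebra.norm v.1 ≠ 0 := fun h => hv (norm_eq_zero_iff_eq_zero.1 h)
  exact mul_right_cancel₀ hN h2

end Pool.Agent.H955Z.Pack
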