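import Pool.Agent.H955Z.Pack.Odd

namespace Pool.Agent.H955Z.Pack

open Module QuadraticAlgebra

variable {F : Type*} [Field F] {n : F} [hn : Fact (∀ r : F, r ^ 2 ≠ n + 0 * r)]

theorem exists_kappa [Finite F] (h2 : (2 : F) ≠ 0) (hodd : Odd (Nat.card F)) :
    ∃ κ : KK n, ¬ IsSquare (QuadraticAlgebra.norm κ) ∧ κ.re ≠ 0 := by
  classical
  have := Fintype.ofFinite F
  have hn0 := n_ne_zero (n := n)
  obtain ⟨a, b, hab⟩ := FiniteField.exists_root_sum_quadratic (R := F)
    (f := Polynomial.X ^ 2) (g := Polynomial.C (-n) * Polynomial.X ^ 2 - Polynomial.C n)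
    (Polynomial.degree_X_pow 2) (by
      rw [Polynomial.degree_sub_C] <;>
        rw [Polynomial.degree_C_mul_X_pow _ (neg_ne_zero.2 hn0)] <;> norm_num)
    (by rw [← Nat.card_eq_fintype_card]; exact Nat.odd_iff.1 hodd)
  simp at hab
  by_cases ha : a = 0
  · have hn1 : 1 - n ≠ 0 := fun h => n_not_sq (n := n) ⟨1, by linear_combination -h⟩
    have hb : b ≠ 0 := fun h => hn0 (by rw [ha, h] at hab; linear_combination -hab)
    refine ⟨⟨2 * n * b / (1 - n), b * (1 + n) / (1 - n)⟩, ?_, ?_⟩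
    · have : QuadraticAlgebra.norm (⟨2 * n * b / (1 - n), b * (1 + n) / (1 - n)⟩ : KK n) = n := by
        simp only [QuadraticAlgebra.norm_def]
        field_simp
        rw [ha] at hab
        have hb2 : b ^ 2 = -1 := by
          apply mul_left_cancel₀ hn0
          linear_combination -hab
        linear_combination (-(1 - n) ^ 2) * hb2
      rw [this]; exact n_not_sq
    · exact div_ne_zero (mul_ne_zero (mul_ne_zero h2 hn0) hb) hn1
  · refine ⟨⟨a, b⟩, ?_, ha⟩
    have : QuadraticAlgebra.norm (⟨a, b⟩ : KK n) = n := by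
      simp only [QuadraticAlgebra.norm_def]
      linear_combination hab
    rw [this]; exact n_not_sq

theorem exists_cpp_model [Finite F] (h2 : (2 : F) ≠ 0) (hodd : Odd (Nat.card F)) :
    ∃ P : Set (Set (Submodule F (KK n × KK n))), IsCompletePartialPacking P 2 := by
  obtain ⟨κ, hκ, hre⟩ := exists_kappa (n := n) h2 hodd
  have : Finite (KK n) := Finite.of_equiv _ (QuadraticAlgebra.equivProd n 0).symm
  have hfin : Finite (Submodule F (KK n × KK n)) :=
    Finite.of_injective (fun L : Submodule F (KK n × KK n) => (L : Set (KK n × KK n)))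
      SetLike.coe_injective
  have h4 := finrank_V (n := n)
  have ho := omega_ne_zero (n := n)
  have m0 : S0 n ∈ P0 κ := Or.inl rfl
  have m1 : HH κ 0 1 ∈ P0 κ := Or.inr ⟨0, 1, one_ne_zero, rfl⟩
  have m2 : HH κ 0 ω ∈ P0 κ := Or.inr ⟨0, ω, ho, rfl⟩
  set Q := P0 κ \ {S0 n, HH κ 0 1, HH κ 0 ω} with hQ
  have hTQ : ∀ S ∈ Q, Disjoint (TT κ) S := by
    rintro S ⟨hS, hS'⟩
    simp only [Set.mem_insert_iff, Set.mem_singleton_iff, not_or] at hS'
    refine Set.disjoint_of_subset_left TT_sub ?_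
    rw [Set.disjoint_union_left, Set.disjoint_union_left]
    exact ⟨⟨P0_disj h2 hκ m0 hS (Ne.symm hS'.1), P0_disj h2 hκ m1 hS (Ne.symm hS'.2.1)⟩,
      P0_disj h2 hκ m2 hS (Ne.symm hS'.2.2)⟩
  have hT : TT κ ∉ Q := fun h =>
    Set.disjoint_left.1 (hTQ _ h) (show gL n ∈ TT κ from Or.inl rfl) (Or.inl rfl)
  have hP0 : (P0 κ).ncard = Nat.card F ^ 2 + Nat.card F + 1 := by
    have hv : (((1 : KK n), (0 : KK n)) : KK n × KK n) ≠ 0 :=
      fun h => one_ne_zero (congrArg Prod.fst h)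
    rw [← count_lines _ (P0_cov hκ) (P0_disj h2 hκ) _ hv, ← lines_through h4 _ hv]
    congr 1
    ext L
    constructor
    · rintro ⟨⟨S, hS, hL⟩, h⟩
      exact ⟨(P0_cov hκ S hS).1 L hL, h⟩
    · rintro ⟨h, h'⟩
      exact ⟨P0_all h2 hκ L h, h'⟩
  have h3 : ({S0 n, HH κ 0 1, HH κ 0 ω} : Set (Set (Submodule F (KK n × KK n)))).ncard = 3 :=
    Set.ncard_eq_three.2 ⟨_, _, _, S0_ne_H h2 hκ 0 one_ne_zero, S0_ne_H h2 hκ 0 ho,
      H1_ne_H2 h2 hκ, rfl⟩
  have hsub : ({S0 n, HH κ 0 1, HH κ 0 ω} : Set (Set (Submodule F (KK n × KK n)))) ⊆ P0 κ := by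
    rintro S (rfl | rfl | rfl) <;> assumption
  refine ⟨insert (TT κ) Q, ?_, ?_, ?_, ?_⟩
  · rintro S (rfl | hS)
    · exact (spread_iff_cov h4 _).2 (cov_TT hκ)
    · exact (spread_iff_cov h4 _).2 (P0_cov hκ S hS.1)
  · rintro S (rfl | hS) S' (rfl | hS') hne
    · exact absurd rfl hne
    · exact hTQ _ hS'
    · exact (hTQ _ hS).symm
    · exact P0_disj h2 hκ hS.1 hS'.1 hne
  · rw [Set.ncard_insert_of_notMem hT, hQ, Set.ncard_sdiff hsub, h3, hP0]
    have := two_le_card (F := F)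
    omega
  · intro X hX
    by_contra hcon
    push Not at hcon
    have hXc := (spread_iff_cov h4 _).1 hX
    refine no_spread h2 hκ hre hXc (fun L hL => ?_)
    refine ⟨?_, Set.disjoint_left.1 (hcon _ (Or.inl rfl)) hL⟩
    obtain ⟨S, hS, hLS⟩ := P0_all h2 hκ L (hX.1 L hL)
    by_contra hno
    refine Set.disjoint_left.1 (hcon S (Or.inr ⟨hS, ?_⟩)) hL hLS
    rintro (rfl | rfl | rfl)
    · exact hno (Or.inl (Or.inl hLS))
    · exact hno (Or.inl (Or.inr hLS))
    · exact hno (Or.inr hLS)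

omit hn in
theorem min_deficiency (F : Type*) [Field F] [Finite F] (hodd : Odd (Nat.card F)) :
    IsLeast {d : ℕ | 0 < d ∧ ∃ P : Set (Set (Submodule F (Fin 4 → F))),
      IsCompletePartialPacking P d} 2 := by
  classical
  have := Fintype.ofFinite F
  have hchar : ringChar F ≠ 2 := by
    intro h
    have := FiniteField.even_card_of_char_two h
    rw [← Nat.card_eq_fintype_card] at this
    rw [Nat.odd_iff] at hodd
    omega
  have h2 : (2 : F) ≠ 0 := Ring.two_ne_zero hchar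
  obtain ⟨n, hn⟩ := FiniteField.exists_nonsquare hchar
  have : Fact (∀ r : F, r ^ 2 ≠ n + 0 * r) := ⟨fun r h => hn ⟨r, by linear_combination -h⟩⟩
  have h4 : finrank F (Fin 4 → F) = 4 := by simp
  constructor
  · obtain ⟨P, hP⟩ := exists_cpp_model (n := n) h2 hodd
    exact ⟨by norm_num, _, cpp_map (LinearEquiv.ofFinrankEq _ _ (by rw [finrank_V, h4])) P 2 hP⟩
  · rintro d ⟨hd, P, hP⟩
    by_contra hlt
    have : d = 1 := by omega
    exact no_deficiency_one h4 P (this ▸ hP)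

end Pool.Agent.H955Z.Pack
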