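import Pool.Agent.H955Z.Pack.Spreads

namespace Pool.Agent.H955Z.Pack

open Module QuadraticAlgebra

variable {F : Type*} [Field F] {n : F} [hn : Fact (∀ r : F, r ^ 2 ≠ n + 0 * r)]

def RR (κ : KK n) : Set (Submodule F (KK n × KK n)) := (S0 n ∪ HH κ 0 1 ∪ HH κ 0 ω) \ TT κ

theorem adj {κ : KK n} (hκ : ¬ IsSquare (QuadraticAlgebra.norm κ))
    {X : Set (Submodule F (KK n × KK n))} (hX : Cov X) (hXR : X ⊆ RR κ)
    {A B : Submodule F (KK n × KK n)} (hA : A ∈ RR κ) (hB : B ∈ RR κ) (hne : A ≠ B)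
    {v : KK n × KK n} (hv : v ≠ 0) (hvA : v ∈ A) (hvB : v ∈ B) : A ∈ X ↔ B ∉ X := by
  constructor
  · intro a b
    exact hne ((hX.2 v hv).unique ⟨a, hvA⟩ ⟨b, hvB⟩)
  · intro hb
    obtain ⟨L, hL, hvL⟩ := (hX.2 v hv).exists
    obtain ⟨T, hT, hvT⟩ := ((cov_TT hκ).2 v hv).exists
    obtain ⟨L0, -, u0⟩ := (cov_S0 (n := n)).2 v hv
    obtain ⟨L1, -, u1⟩ := (cov_HH hκ 0 one_ne_zero).2 v hv
    obtain ⟨L2, -, u2⟩ := (cov_HH hκ 0 omega_ne_zero).2 v hv
    have key : ∀ M, M ∈ S0 n ∪ HH κ 0 1 ∪ HH κ 0 ω → v ∈ M → M = L0 ∨ M = L1 ∨ M = L2 := by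
      rintro M ((h | h) | h) hM
      · exact Or.inl (u0 M ⟨h, hM⟩)
      · exact Or.inr (Or.inl (u1 M ⟨h, hM⟩))
      · exact Or.inr (Or.inr (u2 M ⟨h, hM⟩))
    have kA := key A hA.1 hvA
    have kB := key B hB.1 hvB
    have kL := key L (hXR hL).1 hvL
    have kT := key T (TT_sub hT) hvT
    have n1 : A ≠ T := fun h => hA.2 (h ▸ hT)
    have n2 : B ≠ T := fun h => hB.2 (h ▸ hT)
    have n3 : L ≠ T := fun h => (hXR hL).2 (h ▸ hT)
    have n4 : L ≠ B := fun h => hb (h ▸ hL)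
    have : L = A := by
      clear key u0 u1 u2 hvA hvB hvL hvT hA hB hL hT hb hXR hX
      grind
    exact this ▸ hL

theorem mm_not_TT {κ z a d : KK n} (hz : z ≠ 0) (hd : d ≠ 0) : mm z a d ∉ TT κ := by
  rintro (e | ⟨s, t, _, e⟩ | ⟨s, t, _, e⟩)
  · exact mm_ne_gL _ _ hz e
  · exact mm_ne_gr _ _ _ hz hd e
  · exact mm_ne_gr _ _ _ hz hd e

theorem m1_RR {κ z : KK n} (hz : z ≠ 0) : mm z 0 1 ∈ RR κ :=
  ⟨Or.inl (Or.inr (Or.inr ⟨z, hz, rfl⟩)), mm_not_TT hz one_ne_zero⟩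

theorem m2_RR {κ z : KK n} (hz : z ≠ 0) : mm z 0 ω ∈ RR κ :=
  ⟨Or.inr (Or.inr ⟨z, hz, rfl⟩), mm_not_TT hz omega_ne_zero⟩

theorem m1_ne_m2 {z z' : KK n} (hz : z ≠ 0) (hz' : z' ≠ 0) : mm z 0 1 ≠ mm z' 0 ω := by
  intro h
  obtain ⟨s, t, ht, _, e⟩ := mm_eq hz hz' omega_ne_zero h
  simpa using congrArg QuadraticAlgebra.im e

theorem gr_TT (h2 : (2 : F) ≠ 0) {κ x y : KK n} (h : gr x y ∈ TT κ) :
    (∃ s t : F, s ^ 2 - QuadraticAlgebra.norm κ * t ^ 2 = 1 ∧ x = s • 1 ∧ y = t • κ) ∨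
    (∃ s t : F, n * (s ^ 2 - QuadraticAlgebra.norm κ * t ^ 2) ≠ 1 ∧
      x = s • ω ∧ y = t • (κ * ω)) := by
  rcases h with e | ⟨s, t, h, e⟩ | ⟨s, t, h, e⟩
  · exact absurd e (gr_ne_gL _ _)
  · exact Or.inl ⟨s, t, h, gr_inj h2 e⟩
  · exact Or.inr ⟨s, t, h, gr_inj h2 e⟩

theorem n_not_sq : ¬ IsSquare n := by
  rintro ⟨r, hr⟩
  exact hn.out r (by rw [hr]; ring)

theorem hilbert90 {e : KK n} (he : QuadraticAlgebra.norm e = 1) :
    ∃ z : KK n, z ≠ 0 ∧ star z = e * z := by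
  have h : e * star e = 1 := by
    rw [← algebraMap_norm_eq_mul_star, he, map_one]
  by_cases h0 : 1 + star e = 0
  · refine ⟨ω, omega_ne_zero, ?_⟩
    have : e = -1 := by
      have : star e = -1 := by linear_combination h0
      rw [this] at h
      linear_combination -h
    rw [this, star_omega]; ring
  · refine ⟨1 + star e, h0, ?_⟩
    rw [star_add, star_one, star_star]
    linear_combination -h

theorem pigeon [Finite F] (h2 : (2 : F) ≠ 0) {κ : KK n}
    (hκ : ¬ IsSquare (QuadraticAlgebra.norm κ)) (x : KK n) (hx1 : x.re ≠ 0) (hx2 : x.im ≠ 0) :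
    ∃ (z : KK n) (s t : F), z ≠ 0 ∧ t ≠ 0 ∧ x * z = s • z + t • (κ * star z) ∧
      ¬ IsSquare (s ^ 2 - QuadraticAlgebra.norm κ * t ^ 2) := by
  classical
  set ν := QuadraticAlgebra.norm κ with hν
  have hz : ∀ b : F, (⟨1, b⟩ : KK n) ≠ 0 := fun b h => by
    simpa using congrArg QuadraticAlgebra.re h
  choose s t hst using fun b : F => coords_exists hκ (hz b) (x * ⟨1, b⟩)
  have ht : ∀ b, t b ≠ 0 := by
    intro b h
    have e := hst b
    rw [h, zero_smul, add_zero, Algebra.smul_def] at e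
    have := mul_right_cancel₀ (hz b) e
    exact hx2 (by rw [this]; simp)
  have hN : ∀ b, (x.re - s b) ^ 2 - n * x.im ^ 2 = ν * t b ^ 2 := by
    intro b
    have := gr_meet (v := (⟨1, b⟩, x * ⟨1, b⟩)) (x := x) (y := 0) (hz b) (by rw [mem_gr]; simp)
      (mem_gr1.2 (hst b))
    rw [zero_sub, QuadraticAlgebra.norm_neg, norm_smul'] at this
    rw [mul_comm ν, ← this]
    simp [QuadraticAlgebra.norm_def]; ring
  by_contra hcon
  push Not at hcon
  have hsq : ∀ b, IsSquare (s b ^ 2 - ν * t b ^ 2) := fun b => hcon _ _ _ (hz b) (ht b) (hst b)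
  have hQ0 : ∀ b, s b ^ 2 - ν * t b ^ 2 ≠ 0 := by
    intro b h
    exact hκ ⟨s b / t b, by have := ht b; field_simp; linear_combination -h⟩
  let ρ : F → F := fun c => if h : IsSquare c then h.choose else 0
  have hρ : ∀ c, IsSquare c → c = ρ c * ρ c := fun c h => by
    simp only [ρ, dif_pos h]; exact h.choose_spec
  let τ : F → F := fun c =>
    if h : ∃ u : F, (x.re - c) ^ 2 - n * x.im ^ 2 = ν * u ^ 2 then h.choose else 0
  have hν0 : ν ≠ 0 := fun h => hκ (by rw [h]; simp)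
  have hτ : ∀ b, τ (s b) ^ 2 = t b ^ 2 := fun b => by
    have h : ∃ u : F, (x.re - s b) ^ 2 - n * x.im ^ 2 = ν * u ^ 2 := ⟨t b, hN b⟩
    simp only [τ, dif_pos h]
    exact mul_left_cancel₀ hν0 (h.choose_spec.symm.trans (hN b))
  have hτ0 : ∀ b, τ (s b) ≠ 0 := fun b h => by
    have := hτ b
    rw [h] at this
    exact ht b (by simpa using this.symm)
  let ψ : F → F := fun b => ρ (s b ^ 2 - ν * t b ^ 2) * t b / τ (s b)
  have hψ : ∀ b, ψ b ^ 2 = s b ^ 2 - ν * t b ^ 2 := fun b => by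
    have a := hρ _ (hsq b)
    have := ht b
    simp only [ψ]
    rw [div_pow, hτ, mul_pow, sq (ρ _), ← a]
    field_simp
  have hinj : Function.Injective ψ := by
    intro b b' h
    have hQ : s b ^ 2 - ν * t b ^ 2 = s b' ^ 2 - ν * t b' ^ 2 := by rw [← hψ, ← hψ, h]
    have hs : s b = s b' := by
      apply mul_left_cancel₀ (mul_ne_zero h2 hx1)
      linear_combination hQ - hN b + hN b'
    have hρ0 : ρ (s b' ^ 2 - ν * t b' ^ 2) ≠ 0 := fun h0 => by
      have a := hρ _ (hsq b')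
      rw [h0] at a
      exact hQ0 b' (by simpa using a)
    have htt : t b = t b' := by
      simp only [ψ] at h
      rw [hQ, hs, div_left_inj' (hτ0 b')] at h
      exact mul_left_cancel₀ hρ0 h
    by_contra hne
    have e1 := hst b
    have e2 := hst b'
    rw [← hs, ← htt] at e2
    have f : ∀ c : F, (⟨1, c⟩ : KK n) = 1 + algebraMap F _ c * ω := fun c => by ext <;> simp
    have g : ∀ c : F, star (⟨1, c⟩ : KK n) = 1 - algebraMap F _ c * ω := fun c => by ext <;> simp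
    rw [g, f, Algebra.smul_def, Algebra.smul_def] at e1 e2
    have hbb : algebraMap F (KK n) b - algebraMap F (KK n) b' ≠ 0 := by
      rw [← map_sub]; exact (map_ne_zero _).2 (sub_ne_zero.2 hne)
    have h2' : (2 : KK n) ≠ 0 := fun h => h2 (by simpa using congrArg QuadraticAlgebra.re h)
    have e3 : x = algebraMap F (KK n) (s b) - algebraMap F (KK n) (t b) * κ := by
      apply mul_left_cancel₀ (mul_ne_zero hbb (omega_ne_zero (n := n)))
      linear_combination e1 - e2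
    have e4 : 2 * (algebraMap F (KK n) (t b) * κ) = 0 := by
      rw [e3] at e1
      linear_combination -e1
    exact mul_ne_zero h2' (mul_ne_zero ((map_ne_zero _).2 (ht b)) (kappa_ne hκ)) e4
  obtain ⟨b, hb⟩ := Finite.surjective_of_injective hinj 0
  have := hψ b
  rw [hb] at this
  exact hQ0 b (by simpa using this.symm)

theorem no_spread [Finite F] (h2 : (2 : F) ≠ 0) {κ : KK n}
    (hκ : ¬ IsSquare (QuadraticAlgebra.norm κ)) (hre : κ.re ≠ 0)
    {X : Set (Submodule F (KK n × KK n))} (hX : Cov X) (hXR : X ⊆ RR κ) : False := by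
  classical
  have hk := kappa_ne hκ
  have ho := omega_ne_zero (n := n)
  have ne0 : ∀ {z w : KK n}, z ≠ 0 → ((z, w) : KK n × KK n) ≠ 0 :=
    fun hz h => hz (congrArg Prod.fst h)
  have ha : ∀ z : KK n, z ≠ 0 → (mm z 0 1 ∈ X ↔ mm z 0 ω ∉ X) := fun z hz =>
    adj hκ hX hXR (m1_RR hz) (m2_RR hz) (m1_ne_m2 hz hz) (v := (z, 0)) (ne0 hz)
      ⟨1, 0, by simp, by simp⟩ ⟨1, 0, by simp, by simp⟩
  have hb : ∀ z : KK n, z ≠ 0 → (mm (ω * z) 0 1 ∈ X ↔ mm z 0 1 ∈ X) := fun z hz => by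
    rw [ha z hz]
    exact adj hκ hX hXR (m1_RR (mul_ne_zero ho hz)) (m2_RR hz) (m1_ne_m2 (mul_ne_zero ho hz) hz)
      (v := (0, ω * z)) (fun h => mul_ne_zero ho hz (congrArg Prod.snd h))
      ⟨0, 1, by simp, by simp⟩ ⟨0, 1, by simp, by simp⟩
  obtain ⟨s0, t0, h0⟩ := coords_exists hκ (one_ne_zero (α := KK n)) (1 / ω)
  have hc1 : ((1 : KK n), (1 : KK n)) ∈ gr (s0 • ω) (t0 • (κ * ω)) := mem_gr2.2 h0
  have hQ0 : n * (s0 ^ 2 - QuadraticAlgebra.norm κ * t0 ^ 2) = 1 := by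
    rw [← QQ (s := 1) (t := 0) (v := (1, 1)) one_ne_zero (mem_gr1.2 (by simp)) hc1]; simp
  have hc1' : (1 : KK n) = s0 • ω + t0 • (κ * ω) := by simpa using mem_gr.1 hc1
  have ht0 : t0 ≠ 0 := by
    intro h
    simpa [h] using congrArg QuadraticAlgebra.re hc1'
  have hs0 : s0 ≠ 0 := by
    intro h
    have := congrArg QuadraticAlgebra.im hc1'
    simp [h, ht0, hre] at this
  have hcR : gr (s0 • ω) (t0 • (κ * ω)) ∈ RR κ := by
    refine ⟨Or.inr (Or.inl ⟨s0, t0, ht0, by simp⟩), fun h => ?_⟩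
    rcases gr_TT h2 h with ⟨s, t, _, e, _⟩ | ⟨s, t, h, e1, e2⟩
    · exact hs0 (by simpa using congrArg QuadraticAlgebra.im e)
    · have a : s0 = s := by simpa using congrArg QuadraticAlgebra.im e1
      have b : t0 = t := smul_left_injective F (mul_ne_zero hk ho) e2
      exact h (a ▸ b ▸ hQ0)
  have hd1 : mm (1 : KK n) 0 1 ∈ X ↔ gr (s0 • ω) (t0 • (κ * ω)) ∉ X :=
    adj hκ hX hXR (m1_RR one_ne_zero) hcR (mm_ne_gr _ _ _ one_ne_zero one_ne_zero)
      (ne0 one_ne_zero) ⟨1, 1, by simp, by simp⟩ hc1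
  have hμ : ∀ z : KK n, z ≠ 0 → (mm z 0 1 ∈ X ↔ mm (1 : KK n) 0 1 ∈ X) := by
    by_cases hA : ∃ s : F, s ≠ 0 ∧ s ≠ 1 ∧ s ≠ -1
    · obtain ⟨s, a1, a2, a3⟩ := hA
      have hR : gr (s • (1 : KK n)) 0 ∈ RR κ := by
        refine ⟨Or.inl (Or.inl (Or.inr ⟨_, rfl⟩)), fun h => ?_⟩
        rcases gr_TT h2 h with ⟨s', t, h, e1, e2⟩ | ⟨s', t, h, e1, e2⟩
        · have a : s = s' := by simpa using congrArg QuadraticAlgebra.re e1
          have b : t = 0 := by simpa [hk] using e2.symm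
          rw [b, ← a] at h
          have : (s - 1) * (s + 1) = 0 := by linear_combination h
          rcases mul_eq_zero.1 this with h | h
          · exact a2 (by linear_combination h)
          · exact a3 (by linear_combination h)
        · exact a1 (by simpa using congrArg QuadraticAlgebra.re e1)
      have : ∀ z : KK n, z ≠ 0 → (mm z 0 1 ∈ X ↔ gr (s • (1 : KK n)) 0 ∉ X) := fun z hz =>
        adj hκ hX hXR (m1_RR hz) hR (mm_ne_gr _ _ _ hz one_ne_zero) (v := (z, s • z))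
          (ne0 hz) ⟨1, s, by simp, by simp⟩ (by rw [mem_gr]; simp)
      intro z hz
      rw [this z hz, this 1 one_ne_zero]
    · push Not at hA
      have hn1 : n = -1 := hA n n_ne_zero (fun h => n_not_sq (n := n) (by rw [h]; simp))
      have hss : s0 * s0 = 1 := by
        by_cases h : s0 = 1
        · rw [h]; ring
        · rw [hA s0 hs0 h]; ring
      have hz' : (⟨s0, 1⟩ : KK n) ≠ 0 := fun h => by simpa using congrArg QuadraticAlgebra.im h
      have hmem : ((⟨s0, 1⟩ : KK n), -(⟨s0, 1⟩ : KK n)) ∈ gr (s0 • ω) (t0 • (κ * ω)) := by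
        rw [mem_gr]
        have : t0 • (κ * ω) = 1 - s0 • ω := by linear_combination -hc1'
        rw [this]
        ext
        · simp [hn1]
        · simp [hn1]
      have hd2 : mm (⟨s0, 1⟩ : KK n) 0 1 ∈ X ↔ mm (1 : KK n) 0 1 ∈ X := by
        rw [hd1]
        exact adj hκ hX hXR (m1_RR hz') hcR (mm_ne_gr _ _ _ hz' one_ne_zero)
          (ne0 hz') ⟨1, -1, by simp, by simp⟩ hmem
      rintro ⟨a, b⟩ hz
      by_cases hb0 : b = 0
      · have ha0 : a ≠ 0 := fun h => hz (by ext <;> simp [h, hb0])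
        have : (⟨a, b⟩ : KK n) = a • (1 : KK n) := by ext <;> simp [hb0]
        rw [this, mm_smul _ _ _ ha0]
      by_cases ha0 : a = 0
      · have : (⟨a, b⟩ : KK n) = b • (ω * 1 : KK n) := by ext <;> simp [ha0]
        rw [this, mm_smul _ _ _ hb0, hb 1 one_ne_zero]
      by_cases hab : a = b * s0
      · have : (⟨a, b⟩ : KK n) = b • (⟨s0, 1⟩ : KK n) := by ext <;> simp [hab]
        rw [this, mm_smul _ _ _ hb0, hd2]
      · have hab' : b = -a * s0 := by
          have h1 : a / (b * s0) ≠ 0 := div_ne_zero ha0 (mul_ne_zero hb0 hs0)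
          have h3 : a / (b * s0) ≠ 1 := fun h => hab (by field_simp at h; linear_combination h)
          have h4 := hA _ h1 h3
          field_simp at h4
          linear_combination s0 * h4 - b * hss
        have : (⟨a, b⟩ : KK n) = (-a) • (ω * ⟨s0, 1⟩ : KK n) := by
          ext
          · simp [hn1]
          · simp [hab']
        rw [this, mm_smul _ _ _ (neg_ne_zero.2 ha0), hb _ hz', hd2]
  set x : KK n := ⟨-1, 2 * s0⟩ with hx
  have hx1 : x.re ≠ 0 := by simp [hx]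
  have hx2 : x.im ≠ 0 := mul_ne_zero h2 hs0
  have hfR : gr x 0 ∈ RR κ := by
    refine ⟨Or.inl (Or.inl (Or.inr ⟨_, rfl⟩)), fun h => ?_⟩
    rcases gr_TT h2 h with ⟨s', t, h, e1, e2⟩ | ⟨s', t, h, e1, e2⟩
    · exact hx2 (by rw [e1]; simp)
    · exact hx1 (by rw [e1]; simp)
  have hf1 : gr x 0 ∈ X ↔ gr (s0 • ω) (t0 • (κ * ω)) ∉ X := by
    refine adj hκ hX hXR hfR hcR (fun h => ?_) (v := (ω, x * ω)) (ne0 ho) (by rw [mem_gr]; simp) ?_
    · exact smul_ne_zero ht0 (mul_ne_zero hk ho) (gr_inj h2 h).2.symm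
    · rw [mem_gr]
      have : t0 • (κ * ω) = 1 - s0 • ω := by linear_combination -hc1'
      rw [this]
      ext
      · simp [hx]; ring
      · simp [hx]
  obtain ⟨z, s, t, hz, ht, hst, hns⟩ := pigeon h2 hκ x hx1 hx2
  have hpR : gr (s • (1 : KK n)) (t • κ) ∈ RR κ := by
    refine ⟨Or.inl (Or.inr (Or.inl ⟨s, t, ht, by simp⟩)), fun h => ?_⟩
    rcases gr_TT h2 h with ⟨s', t', h, e1, e2⟩ | ⟨s', t', h, e1, e2⟩
    · have a : s = s' := by simpa using congrArg QuadraticAlgebra.re e1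
      have b : t = t' := smul_left_injective F hk e2
      exact hns (by rw [a, b, h]; simp)
    · have : t • (1 : KK n) = t' • ω := by
        apply mul_left_cancel₀ hk
        simp only [Algebra.smul_def] at e2 ⊢
        linear_combination e2
      exact ht (by simpa using congrArg QuadraticAlgebra.re this)
  have hf2 : gr x 0 ∈ X ↔ gr (s • (1 : KK n)) (t • κ) ∉ X := by
    refine adj hκ hX hXR hfR hpR (fun h => ?_) (v := (z, x * z)) (ne0 hz) (by rw [mem_gr]; simp)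
      (mem_gr1.2 hst)
    exact smul_ne_zero ht hk (gr_inj h2 h).2.symm
  have := Fintype.ofFinite F
  set Q := s ^ 2 - QuadraticAlgebra.norm κ * t ^ 2 with hQ
  have hQn : IsSquare (Q * n) := by
    have hQ0 : Q ≠ 0 := fun h => hns (by rw [h]; simp)
    rw [← quadraticChar_one_iff_isSquare (mul_ne_zero hQ0 n_ne_zero), map_mul,
      quadraticChar_neg_one_iff_not_isSquare.2 hns,
      quadraticChar_neg_one_iff_not_isSquare.2 n_not_sq]
    norm_num
  obtain ⟨r, hr⟩ := hQn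
  have hn0 := n_ne_zero (n := n)
  have htk : t • κ ≠ 0 := smul_ne_zero ht hk
  obtain ⟨z', hz', hst'⟩ := hilbert90 (e := ((r / n) • ω - s • (1 : KK n)) / (t • κ)) (by
    have e1 : QuadraticAlgebra.norm ((r / n) • ω - s • (1 : KK n)) = s ^ 2 - n * (r / n) ^ 2 := by
      simp [QuadraticAlgebra.norm_def]; ring
    have e2 : QuadraticAlgebra.norm (t • κ) ≠ 0 := fun h => htk (norm_eq_zero_iff_eq_zero.1 h)
    apply mul_right_cancel₀ e2
    rw [← map_mul, div_mul_cancel₀ _ htk, e1, one_mul, norm_smul']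
    field_simp
    linear_combination hr - n * hQ)
  have hp : gr (s • (1 : KK n)) (t • κ) ∈ X ↔ mm z' 0 ω ∉ X := by
    refine adj hκ hX hXR hpR (m2_RR hz') (mm_ne_gr _ _ _ hz' ho).symm
      (v := (z', (r / n) • (ω * z'))) (ne0 hz') ?_ ⟨1, r / n, by simp, by simp⟩
    rw [mem_gr]
    simp only [hst']
    rw [← mul_assoc, mul_div_cancel₀ _ htk]
    simp only [Algebra.smul_def]
    ring
  have k1 := ha z' hz'
  have k2 := hμ z' hz'
  tauto

end Pool.Agent.H955Z.Pack
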