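import Pool.Agent.H955Z.Pack.Lines

namespace Pool.Agent.H955Z.Pack

open Module QuadraticAlgebra

variable {F : Type*} [Field F] {n : F} [hn : Fact (∀ r : F, r ^ 2 ≠ n + 0 * r)]

def S0 (n : F) [Fact (∀ r : F, r ^ 2 ≠ n + 0 * r)] : Set (Submodule F (KK n × KK n)) :=
  {L | L = gL n ∨ ∃ x, L = gr x 0}

def HH (κ a d : KK n) : Set (Submodule F (KK n × KK n)) :=
  {L | (∃ s t : F, t ≠ 0 ∧ L = gr (a + s • d) (t • (κ * d))) ∨ ∃ z, z ≠ 0 ∧ L = mm z a d}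

def TT (κ : KK n) : Set (Submodule F (KK n × KK n)) :=
  {L | L = gL n ∨
    (∃ s t : F, s ^ 2 - QuadraticAlgebra.norm κ * t ^ 2 = 1 ∧ L = gr (s • 1) (t • κ)) ∨
    (∃ s t : F, n * (s ^ 2 - QuadraticAlgebra.norm κ * t ^ 2) ≠ 1 ∧
      L = gr (s • ω) (t • (κ * ω)))}

theorem not_mem_gr {x y : KK n} {v : KK n × KK n} (hv : v ≠ 0) (h1 : v.1 = 0) : v ∉ gr x y := by
  intro h
  rw [mem_gr, h1] at h
  exact hv (Prod.ext h1 (by simpa using h))

theorem cov_S0 : Cov (S0 n) := by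
  refine ⟨?_, fun v hv => ?_⟩
  · rintro L (rfl | ⟨x, rfl⟩)
    · exact finrank_gL
    · exact finrank_gr _ _
  · by_cases h1 : v.1 = 0
    · refine ⟨gL n, ⟨Or.inl rfl, h1⟩, ?_⟩
      rintro L ⟨rfl | ⟨x, rfl⟩, h⟩
      · rfl
      · exact absurd h (not_mem_gr hv h1)
    · refine ⟨gr (v.2 / v.1) 0, ⟨Or.inr ⟨_, rfl⟩, by rw [mem_gr]; field_simp; simp⟩, ?_⟩
      rintro L ⟨rfl | ⟨x, rfl⟩, h⟩
      · exact absurd h h1
      · rw [mem_gr] at h
        rw [h]; congr 1; field_simp; simp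

theorem mem_gr_H {κ a d : KK n} (hd : d ≠ 0) {s t : F} {v : KK n × KK n} :
    v ∈ gr (a + s • d) (t • (κ * d)) ↔ (v.2 - a * v.1) / d = s • v.1 + t • (κ * star v.1) := by
  rw [mem_gr, div_eq_iff hd]
  simp only [Algebra.smul_def]
  constructor <;> intro h <;> linear_combination h

theorem cov_HH {κ : KK n} (hκ : ¬ IsSquare (QuadraticAlgebra.norm κ)) (a : KK n) {d : KK n}
    (hd : d ≠ 0) : Cov (HH κ a d) := by
  refine ⟨?_, fun v hv => ?_⟩
  · rintro L (⟨s, t, _, rfl⟩ | ⟨z, hz, rfl⟩)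
    · exact finrank_gr _ _
    · exact finrank_mm _ hz hd
  · by_cases h1 : v.1 = 0
    · have h2 : v.2 ≠ 0 := fun h => hv (Prod.ext h1 h)
      refine ⟨mm (v.2 / d) a d, ⟨Or.inr ⟨_, div_ne_zero h2 hd, rfl⟩,
        mem_mm.2 ⟨0, 1, by simp [h1], by simp; field_simp⟩⟩, ?_⟩
      rintro L ⟨⟨s, t, _, rfl⟩ | ⟨z, hz, rfl⟩, h⟩
      · exact absurd h (not_mem_gr hv h1)
      · obtain ⟨α, β, e1, e2⟩ := h
        have hα : α = 0 := by rw [h1] at e1; simpa [hz] using e1.symm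
        have hβ : β ≠ 0 := fun h => h2 (by simp [e2, hα, h])
        have : v.2 / d = β • z := by
          rw [e2, hα, div_eq_iff hd]; simp only [Algebra.smul_def, map_zero]; ring
        rw [this, mm_smul _ _ _ hβ]
    · obtain ⟨s, t, hst⟩ := coords_exists hκ h1 ((v.2 - a * v.1) / d)
      have mmcase : ∀ z, z ≠ 0 → v ∈ mm z a d → t = 0 ∧ mm z a d = mm v.1 a d := by
        rintro z hz ⟨α, β, e1, e2⟩
        have hα : α ≠ 0 := fun h => h1 (by simp [e1, h])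
        have hα' : algebraMap F (KK n) α ≠ 0 := by simpa using hα
        refine ⟨?_, by rw [e1, mm_smul _ _ _ hα]⟩
        have : (v.2 - a * v.1) / d = (β / α) • v.1 + (0 : F) • (κ * star v.1) := by
          rw [zero_smul, add_zero, div_eq_iff hd, e2, e1]
          simp only [Algebra.smul_def, map_div₀]
          field_simp
          ring
        exact (coords_unique hκ h1 (hst.symm.trans this)).2
      by_cases ht : t = 0
      · refine ⟨mm v.1 a d, ⟨Or.inr ⟨_, h1, rfl⟩, mem_mm.2 ⟨1, s, by simp, ?_⟩⟩, ?_⟩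
        · rw [ht, zero_smul, add_zero, div_eq_iff hd] at hst
          simp only [Algebra.smul_def, map_one] at hst ⊢
          linear_combination hst
        · rintro L ⟨⟨s', t', ht', rfl⟩ | ⟨z, hz, rfl⟩, h⟩
          · rw [mem_gr_H hd] at h
            exact absurd ((coords_unique hκ h1 (hst.symm.trans h)).2.symm.trans ht) ht'
          · exact (mmcase z hz h).2
      · refine ⟨gr (a + s • d) (t • (κ * d)), ⟨Or.inl ⟨s, t, ht, rfl⟩, (mem_gr_H hd).2 hst⟩, ?_⟩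
        rintro L ⟨⟨s', t', ht', rfl⟩ | ⟨z, hz, rfl⟩, h⟩
        · rw [mem_gr_H hd] at h
          obtain ⟨rfl, rfl⟩ := coords_unique hκ h1 (hst.symm.trans h)
          rfl
        · exact absurd (mmcase z hz h).1 ht

theorem mem_gr1 {κ : KK n} {s t : F} {v : KK n × KK n} :
    v ∈ gr (s • 1) (t • κ) ↔ v.2 = s • v.1 + t • (κ * star v.1) := by
  rw [mem_gr]
  simp only [Algebra.smul_def]
  constructor <;> intro h <;> linear_combination h

theorem mem_gr2 {κ : KK n} {s t : F} {v : KK n × KK n} :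
    v ∈ gr (s • ω) (t • (κ * ω)) ↔ v.2 / ω = s • v.1 + t • (κ * star v.1) := by
  rw [mem_gr, div_eq_iff omega_ne_zero]
  simp only [Algebra.smul_def]
  constructor <;> intro h <;> linear_combination h

theorem QQ {κ : KK n} {s t s' t' : F} {v : KK n × KK n} (hv : v.1 ≠ 0)
    (h1 : v ∈ gr (s • 1) (t • κ)) (h2 : v ∈ gr (s' • ω) (t' • (κ * ω))) :
    s ^ 2 - QuadraticAlgebra.norm κ * t ^ 2 = n * (s' ^ 2 - QuadraticAlgebra.norm κ * t' ^ 2) := by
  have h := gr_meet hv h1 h2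
  have e : t • κ - t' • (κ * ω) = κ * (t • 1 - t' • ω) := by
    simp only [Algebra.smul_def]; ring
  rw [e, map_mul] at h
  have e1 : ∀ a b : F, QuadraticAlgebra.norm (a • (1 : KK n) - b • ω) = a ^ 2 - n * b ^ 2 := by
    intro a b; simp [QuadraticAlgebra.norm_def]; ring
  rw [e1, e1] at h
  linear_combination h

theorem cov_TT {κ : KK n} (hκ : ¬ IsSquare (QuadraticAlgebra.norm κ)) : Cov (TT κ) := by
  refine ⟨?_, fun v hv => ?_⟩
  · rintro L (rfl | ⟨s, t, _, rfl⟩ | ⟨s, t, _, rfl⟩)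
    · exact finrank_gL
    · exact finrank_gr _ _
    · exact finrank_gr _ _
  · by_cases h1 : v.1 = 0
    · refine ⟨gL n, ⟨Or.inl rfl, h1⟩, ?_⟩
      rintro L ⟨rfl | ⟨s, t, _, rfl⟩ | ⟨s, t, _, rfl⟩, h⟩
      · rfl
      · exact absurd h (not_mem_gr hv h1)
      · exact absurd h (not_mem_gr hv h1)
    · obtain ⟨s, t, hst⟩ := coords_exists hκ h1 v.2
      obtain ⟨s', t', hst'⟩ := coords_exists hκ h1 (v.2 / ω)
      have hQ := QQ h1 (mem_gr1.2 hst) (mem_gr2.2 hst')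
      by_cases hc : s ^ 2 - QuadraticAlgebra.norm κ * t ^ 2 = 1
      · refine ⟨gr (s • 1) (t • κ), ⟨Or.inr (Or.inl ⟨s, t, hc, rfl⟩), mem_gr1.2 hst⟩, ?_⟩
        rintro L ⟨rfl | ⟨a, b, hab, rfl⟩ | ⟨a, b, hab, rfl⟩, h⟩
        · exact absurd h h1
        · obtain ⟨rfl, rfl⟩ := coords_unique hκ h1 (hst.symm.trans (mem_gr1.1 h))
          rfl
        · obtain ⟨rfl, rfl⟩ := coords_unique hκ h1 (hst'.symm.trans (mem_gr2.1 h))
          exact absurd (hQ.symm.trans hc) hab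
      · refine ⟨gr (s' • ω) (t' • (κ * ω)),
          ⟨Or.inr (Or.inr ⟨s', t', hQ ▸ hc, rfl⟩), mem_gr2.2 hst'⟩, ?_⟩
        rintro L ⟨rfl | ⟨a, b, hab, rfl⟩ | ⟨a, b, hab, rfl⟩, h⟩
        · exact absurd h h1
        · obtain ⟨rfl, rfl⟩ := coords_unique hκ h1 (hst.symm.trans (mem_gr1.1 h))
          exact absurd hab hc
        · obtain ⟨rfl, rfl⟩ := coords_unique hκ h1 (hst'.symm.trans (mem_gr2.1 h))
          rfl

theorem HH_shift (κ a d : KK n) (s : F) {t : F} (ht : t ≠ 0) :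
    HH κ (a + s • d) (t • d) = HH κ a d := by
  ext L
  simp only [HH, Set.mem_ofPred_eq, mm_shift _ _ _ _ ht]
  apply or_congr_left
  constructor
  · rintro ⟨s', t', ht', rfl⟩
    refine ⟨s + s' * t, t' * t, mul_ne_zero ht' ht, ?_⟩
    congr 1 <;> simp only [Algebra.smul_def, map_add, map_mul] <;> ring
  · rintro ⟨s', t', ht', rfl⟩
    have ht2 : algebraMap F (KK n) t ≠ 0 := by simpa using ht
    refine ⟨(s' - s) / t, t' / t, div_ne_zero ht' ht, ?_⟩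
    congr 1 <;> simp only [Algebra.smul_def, map_sub, map_div₀] <;> field_simp
    ring

theorem kappa_ne {κ : KK n} (hκ : ¬ IsSquare (QuadraticAlgebra.norm κ)) : κ ≠ 0 := by
  rintro rfl
  exact hκ (by simp)

theorem HH_eq (h2 : (2 : F) ≠ 0) {κ : KK n} (hκ : ¬ IsSquare (QuadraticAlgebra.norm κ))
    {a d a' d' : KK n} (hd : d ≠ 0) (hd' : d' ≠ 0) {L : Submodule F (KK n × KK n)}
    (h : L ∈ HH κ a d) (h' : L ∈ HH κ a' d') :
    ∃ s t : F, t ≠ 0 ∧ a' = a + s • d ∧ d' = t • d := by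
  rcases h with ⟨s, t, ht, rfl⟩ | ⟨z, hz, rfl⟩
  · rcases h' with ⟨s', t', ht', e⟩ | ⟨z', hz', e⟩
    · obtain ⟨e1, e2⟩ := gr_inj h2 e
      have ht2 : algebraMap F (KK n) t' ≠ 0 := by simpa using ht'
      have e3 : d' = (t / t') • d := by
        apply mul_left_cancel₀ (kappa_ne hκ)
        simp only [Algebra.smul_def, map_div₀] at e2 ⊢
        field_simp
        linear_combination -e2
      refine ⟨s - s' * (t / t'), t / t', div_ne_zero ht ht', ?_, e3⟩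
      rw [e3] at e1
      simp only [Algebra.smul_def, map_sub, map_mul] at e1 ⊢
      linear_combination -e1
    · exact absurd e.symm (mm_ne_gr _ _ _ hz' hd')
  · rcases h' with ⟨s', t', ht', e⟩ | ⟨z', hz', e⟩
    · exact absurd e (mm_ne_gr _ _ _ hz hd)
    · exact mm_eq hz hz' hd' e

theorem S0_disj (h2 : (2 : F) ≠ 0) {κ : KK n} (hκ : ¬ IsSquare (QuadraticAlgebra.norm κ))
    (a : KK n) {d : KK n} (hd : d ≠ 0) : Disjoint (S0 n) (HH κ a d) := by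
  rw [Set.disjoint_left]
  rintro L (rfl | ⟨x, rfl⟩) (⟨s, t, ht, e⟩ | ⟨z, hz, e⟩)
  · exact gr_ne_gL _ _ e.symm
  · exact mm_ne_gL _ _ hz e.symm
  · have := (gr_inj h2 e).2
    have hk := kappa_ne hκ
    exact smul_ne_zero ht (mul_ne_zero hk hd) this.symm
  · exact mm_ne_gr _ _ _ hz hd e.symm

def P0 (κ : KK n) : Set (Set (Submodule F (KK n × KK n))) :=
  {S | S = S0 n ∨ ∃ a d, d ≠ 0 ∧ S = HH κ a d}

theorem P0_cov {κ : KK n} (hκ : ¬ IsSquare (QuadraticAlgebra.norm κ)) :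
    ∀ S ∈ P0 κ, Cov S := by
  rintro S (rfl | ⟨a, d, hd, rfl⟩)
  · exact cov_S0
  · exact cov_HH hκ a hd

theorem P0_disj (h2 : (2 : F) ≠ 0) {κ : KK n} (hκ : ¬ IsSquare (QuadraticAlgebra.norm κ)) :
    (P0 κ).Pairwise Disjoint := by
  rintro S (rfl | ⟨a, d, hd, rfl⟩) S' (rfl | ⟨a', d', hd', rfl⟩) hne
  · exact absurd rfl hne
  · exact S0_disj h2 hκ _ hd'
  · exact (S0_disj h2 hκ _ hd).symm
  · rw [Set.disjoint_left]
    intro L h h'
    obtain ⟨s, t, ht, rfl, rfl⟩ := HH_eq h2 hκ hd hd' h h'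
    exact hne (HH_shift _ _ _ _ ht).symm

theorem P0_all (h2 : (2 : F) ≠ 0) {κ : KK n} (hκ : ¬ IsSquare (QuadraticAlgebra.norm κ))
    (L : Submodule F (KK n × KK n)) (hL : finrank F L = 2) : ∃ S ∈ P0 κ, L ∈ S := by
  rcases classify h2 L hL with rfl | ⟨x, y, rfl⟩ | ⟨z, a, d, hz, hd, rfl⟩
  · exact ⟨_, Or.inl rfl, Or.inl rfl⟩
  · by_cases hy : y = 0
    · exact ⟨_, Or.inl rfl, Or.inr ⟨x, by rw [hy]⟩⟩
    · have hk := kappa_ne hκ
      refine ⟨_, Or.inr ⟨x, y / κ, div_ne_zero hy hk, rfl⟩, Or.inl ⟨0, 1, one_ne_zero, ?_⟩⟩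
      congr 1
      · simp
      · rw [one_smul]; field_simp
  · exact ⟨_, Or.inr ⟨a, d, hd, rfl⟩, Or.inr ⟨z, hz, rfl⟩⟩

theorem TT_sub {κ : KK n} : TT κ ⊆ S0 n ∪ HH κ 0 1 ∪ HH κ 0 ω := by
  rintro L (rfl | ⟨s, t, _, rfl⟩ | ⟨s, t, _, rfl⟩)
  · exact Or.inl (Or.inl (Or.inl rfl))
  · by_cases ht : t = 0
    · exact Or.inl (Or.inl (Or.inr ⟨s • 1, by simp [ht]⟩))
    · exact Or.inl (Or.inr (Or.inl ⟨s, t, ht, by simp⟩))
  · by_cases ht : t = 0
    · exact Or.inl (Or.inl (Or.inr ⟨s • ω, by simp [ht]⟩))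
    · exact Or.inr (Or.inl ⟨s, t, ht, by simp⟩)

theorem H1_ne_H2 (h2 : (2 : F) ≠ 0) {κ : KK n} (hκ : ¬ IsSquare (QuadraticAlgebra.norm κ)) :
    HH κ 0 1 ≠ HH κ 0 ω := by
  intro h
  have a : mm (1 : KK n) 0 1 ∈ HH κ 0 1 := Or.inr ⟨1, one_ne_zero, rfl⟩
  obtain ⟨s, t, ht, _, e⟩ := HH_eq h2 hκ one_ne_zero omega_ne_zero a (h ▸ a)
  simpa using congrArg QuadraticAlgebra.im e

theorem S0_ne_H (h2 : (2 : F) ≠ 0) {κ : KK n} (hκ : ¬ IsSquare (QuadraticAlgebra.norm κ))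
    (a : KK n) {d : KK n} (hd : d ≠ 0) : S0 n ≠ HH κ a d := by
  intro h
  have a1 : gL n ∈ S0 n := Or.inl rfl
  exact Set.disjoint_left.1 (S0_disj h2 hκ a hd) a1 (h ▸ a1)

end Pool.Agent.H955Z.Pack
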